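import Pool.Agent.H589R2.MNL.Single
import Pool.Agent.H589R2.MNL.Dom3
import Pool.Agent.H589R2.MNL.Rounds2

/-!
# Deterministic context-free languages need almost `log₂ n` NOT gates in the NL model

A deterministic pushdown automaton whose language, restricted to sets of words on which it is
monotone, cannot be decided by polynomial size nondeterministic branching programs using at most
`(1 - ε) log₂ n` negations.
-/

namespace Pool.Agent.Results.MP_9277c3_lc.FewNegationsDCF

open Pool.Agent.H589R2.MNL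

/-- **Almost `log₂ n` negations are needed to put the deterministic context-free languages into
NL.** -/
theorem result : ∃ (Tag : Type) (_ : Fintype Tag) (M : DPDA (Tag × Bool)), ∀ e k n₀ : ℕ,
    ∃ n ≥ n₀, ∃ (t : Fin n → Tag) (D : Set (Fin n → Bool)),
      (∀ x ∈ D, ∀ y ∈ D, x ≤ y → M.Accepts (List.ofFn fun i => (t i, x i)) →
        M.Accepts (List.ofFn fun i => (t i, y i))) ∧
      ∀ R : Rounds (Fin n), (∀ A, R.size A ≤ n ^ e) →
        (∀ x ∈ D, R.Accepts x ↔ M.Accepts (List.ofFn fun i => (t i, x i))) →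
        n ^ k ≤ (∏ i ∈ Finset.range R.d, (R.w i + 1)) ^ (k + 1) := by
  classical
  refine ⟨Tg, inferInstance, mach3, fun e k n₀ => ?_⟩
  obtain ⟨h, s, hsn, hs1, hsingle⟩ := single ((k + 1) * e) n₀
  obtain ⟨m, hm⟩ : ∃ m, m = 2 ^ s := ⟨_, rfl⟩
  have hm1 : 1 ≤ m := by rw [hm]; exact Nat.one_le_two_pow
  have hnm : n₀ ≤ m := by
    rw [hm]; exact hsn.trans Nat.lt_two_pow_self.le
  obtain ⟨b, hb⟩ : ∃ b, b = (tenc m h).length := ⟨_, rfl⟩
  obtain ⟨B, hB⟩ : ∃ B, B = 2 ^ (h + 5 + 4 * s) := ⟨_, rfl⟩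
  have hbB : b ≤ B := by
    have h1 := length_tenc hm1 h
    have h2 : 2 ^ (h + 4) * m ^ 4 = 2 ^ (h + 4 + 4 * s) := by
      rw [hm, ← pow_mul, ← pow_add]
      congr 1
      ring
    rw [h2] at h1
    rw [hb, hB]
    exact h1.trans (Nat.pow_le_pow_right (by norm_num) (by omega))
  obtain ⟨M, hM⟩ : ∃ M, M = B ^ k := ⟨_, rfl⟩
  have hB1 : 1 ≤ B := by rw [hB]; exact Nat.one_le_two_pow
  have hM1 : 1 ≤ M := by rw [hM]; exact Nat.one_le_pow _ _ hB1
  have hlen : (tblks m M h).length = M * b := by rw [length_tblks, hb]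
  have hnn : n₀ ≤ (tblks m M h).length := by
    rw [hlen]
    have h1 := le_length_tenc (m := m) h
    have h2 : b ≤ M * b := Nat.le_mul_of_pos_left b hM1
    omega
  set ρ : Fin (tblks m M h).length → Bool ⊕ (Fin M × Vr m) :=
    fun i => ((tblks m M h).get i).2 with hρ
  have hword : ∀ X : Fin M × Vr m → Bool,
      List.ofFn (fun i : Fin (tblks m M h).length =>
        (((tblks m M h).get i).1, Sum.elim id X (ρ i)))
      = ((List.finRange M).map (fun j => fun v => X (j, v))).flatMap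
        (fun x => evb (Sum.elim id x) (tenc m h)) := by
    intro X
    rw [← evb_tblks]
    exact (List.map_ofFn (f := (tblks m M h).get)
      (g := fun g => (g.1, Sum.elim id X g.2))).symm.trans (by rw [List.ofFn_get]; rfl)
  have hgood : ∀ X : Fin M × Vr m → Bool,
      mach3.Accepts (List.ofFn (fun i : Fin (tblks m M h).length =>
        (((tblks m M h).get i).1, Sum.elim id X (ρ i)))) ↔
      ∃ j, DGood h (fun v => X (j, v)) := by
    intro X
    rw [hword, mach3_accepts]
    simp [List.mem_map]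
  refine ⟨(tblks m M h).length, hnn, fun i => ((tblks m M h).get i).1,
    {x | ∃ X : Fin M × Vr m → Bool, (∀ j, (fun v => X (j, v)) ∈ KK hm1 h) ∧
      x = fun i => Sum.elim id X (ρ i)}, ?_, fun R hsize hR => ?_⟩
  · rintro _ ⟨X, hX, rfl⟩ _ ⟨Y, hY, rfl⟩ hXY hacc
    rw [hgood] at hacc ⊢
    obtain ⟨j, hj⟩ := hacc
    refine ⟨j, (dgood_iff hm1 (hY j)).2 (good_mono ?_ ((dgood_iff hm1 (hX j)).1 hj))⟩
    intro g hg hgX
    have hmem : (g.1, Sum.map id (Prod.mk j) g.2) ∈ tblks m M h := by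
      unfold tblks
      rw [List.mem_flatMap]
      exact ⟨j, List.mem_finRange j, List.mem_map.2 ⟨g, hg, rfl⟩⟩
    obtain ⟨i, hi⟩ := List.mem_iff_get.1 hmem
    have hρi : ρ i = Sum.map id (Prod.mk j) g.2 := by rw [hρ]; simp only [hi]
    have h1 := hXY i
    simp only [hρi, elim_map] at h1
    rw [hgX] at h1
    exact top_le_iff.1 h1
  have hn : (tblks m M h).length ≤ B ^ (k + 1) := by
    rw [hlen, hM, pow_succ]
    exact Nat.mul_le_mul_left _ hbB
  have hlow : M + 1 ≤ ∏ i ∈ Finset.range R.d, (R.w i + 1) := by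
    by_contra hlt
    have hprod : ∏ i ∈ Finset.range R.d, (R.w i + 1) ≤ M := by omega
    obtain ⟨ι, _, F, U, hF1, _, hF3, hF4⟩ := transfer_gen (M := M) (KK hm1 h) (Or.inl rfl)
      (g := Good h) (neg := fun S => xneg h S) (fun S => Or.inr (Or.inl ⟨S, rfl⟩))
      (fun S => not_good_xneg h S) (not_good_zero h)
      R.d R.w (fun i k A => (R.N i k A).pull ρ)
      (fun i k A A' hag => by simp only [R.dep i k A A' hag])
      ((tblks m M h).length ^ e) (fun A => hsize A)
      (fun X hX => by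
        obtain ⟨A, hA⟩ := R.exists_answers (fun z => Sum.elim id X (ρ z))
        refine ⟨A, fun i hi k hk => ?_, ?_⟩
        · rw [Net.pull_accepts]
          exact hA i hi k hk
        · rw [Net.pull_accepts, ← R.accepts_iff hA, hR _ ⟨X, hX, rfl⟩, hgood X]
          constructor
          · rintro ⟨j, hj⟩
            exact ⟨j, dgood_good hj⟩
          · rintro ⟨j, hj⟩
            exact ⟨j, (dgood_iff hm1 (hX j)).2 hj⟩)
      hprod
    obtain ⟨P, hP⟩ := exists_or F U
    refine hsingle m hm hm1 _ ?_ P (fun l => ?_) (fun S hacc => ?_)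
    · have h1 : (tblks m M h).length ^ e ≤ 2 ^ ((h + 5 + 4 * s) * ((k + 1) * e)) := by
        calc (tblks m M h).length ^ e ≤ (B ^ (k + 1)) ^ e := Nat.pow_le_pow_left hn e
          _ = 2 ^ ((h + 5 + 4 * s) * ((k + 1) * e)) := by
            rw [hB, ← pow_mul, ← pow_mul]
      have h2 : 1 ≤ 2 ^ ((h + 5 + 4 * s) * ((k + 1) * e)) := Nat.one_le_two_pow
      have h3 : 2 ^ ((h + 5 + 4 * s) * ((k + 1) * e) + 2)
          = 4 * 2 ^ ((h + 5 + 4 * s) * ((k + 1) * e)) := by rw [pow_add]; ring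
      omega
    · rw [hP]
      exact hF3 _ (Or.inr (Or.inr ⟨l, rfl⟩)) (dgood_good (dgood_xpos hm1 h l))
    · rw [hP] at hacc
      exact hF4 S hacc
  have hbM : b ^ k ≤ M := by
    rw [hM]
    exact Nat.pow_le_pow_left hbB k
  calc (tblks m M h).length ^ k = M ^ k * b ^ k := by rw [hlen, mul_pow]
    _ ≤ M ^ k * M := Nat.mul_le_mul_left _ hbM
    _ = M ^ (k + 1) := (pow_succ _ _).symm
    _ ≤ (∏ i ∈ Finset.range R.d, (R.w i + 1)) ^ (k + 1) :=
        Nat.pow_le_pow_left (by omega) _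

end Pool.Agent.Results.MP_9277c3_lc.FewNegationsDCF
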