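import Pool.Agent.H559R12.Main

/-!
A linear context-free language (a nondeterministic program reads three letters to accept it) all of
whose read-`k`-times branching programs have exponential size, for `k ≤ c log n`.
-/

set_option autoImplicit false

namespace Pool.Agent.Results.MP_9277c3_lc.ReadKPrograms

open Pool.Agent.H559R12

/-- There is a linear context-free grammar `G` over a four-letter alphabet such that for all `n`:
(1) some nondeterministic read-once branching program with at most `3 n ^ 2` edges accepts exactly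
the words of length `n` generated by `G`;
(2) each nondeterministic (syntactic) read-`k`-times branching program, `k ≥ 1`, that accepts
exactly the words of length `n` not generated by `G` has `E` edges with
`n ≤ 10 ^ 9 * (4 ^ k * k ^ 2 * (log₂ E + 1)) ^ 3`;
(3) each deterministic (syntactic) read-`k`-times branching program with `V` nodes that decides
the words of length `n` generated by `G` has
`n ≤ 10 ^ 9 * (4 ^ k * k ^ 2 * (log₂ (4 V) + 1)) ^ 3`. -/
theorem result : ∃ G : ContextFreeGrammar Let, Pool.Agent.H540R2.IsLinear G ∧ ∀ n : ℕ,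
    (∃ P : NBP n Let, P.ReadK 1 ∧ Fintype.card P.E ≤ 3 * n ^ 2 ∧
      ∀ w, P.Accepts w ↔ List.ofFn w ∈ G.language) ∧
    (∀ (k : ℕ) (P : NBP n Let), 1 ≤ k → P.ReadK k →
      (∀ w, P.Accepts w ↔ List.ofFn w ∉ G.language) →
      n ≤ 10 ^ 9 * (4 ^ k * k ^ 2 * (Nat.log 2 (Fintype.card P.E) + 1)) ^ 3) ∧
    (∀ (k : ℕ) (D : DBP n Let), 1 ≤ k → D.ReadK k →
      (∀ w, (List.ofFn w ∈ G.language → D.Outputs w true) ∧
        (List.ofFn w ∉ G.language → D.Outputs w false)) →
      n ≤ 10 ^ 9 * (4 ^ k * k ^ 2 * (Nat.log 2 (4 * Fintype.card D.V) + 1)) ^ 3) := by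
  obtain ⟨G, hG, hw⟩ := exists_grammar
  refine ⟨G, hG, fun n => ⟨?_, ?_, ?_⟩⟩
  · obtain ⟨P, h1, h2, h3⟩ := upper n
    exact ⟨P, h1, h2, fun w => (h3 w).trans (hw n w).symm⟩
  · intro k P hk hP hacc
    exact lower n k hk P hP (fun w => (hacc w).trans (not_congr (hw n w)))
  · intro k D hk hD hout
    exact lower_det n k hk D hD (fun w =>
      ⟨fun h => (hout w).1 ((hw n w).2 h), fun h => (hout w).2 (fun h' => h ((hw n w).1 h'))⟩)

end Pool.Agent.Results.MP_9277c3_lc.ReadKPrograms
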