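import Pool.Agent.H561R2.CF.Main

/-!
# A deterministic pushdown automaton whose language is hard for nondeterministic read-once
branching programs
-/

namespace Pool.Agent.Results.MP_9277c3_lc.ReadOnceDPDA

open Pool.Agent.H561R2.CF

theorem result : ∃ (Q G A : Type) (_ : Fintype Q) (_ : Fintype G) (_ : Fintype A)
    (M : RDPDA Q G A), ∀ k n : ℕ, 1 ≤ k → 240 * k ≤ Nat.log 2 n →
      ∃ F : Finset (Fin n → A), F.Nonempty ∧ (∀ w ∈ F, List.ofFn w ∈ M.language) ∧
        ∀ (S b : ℕ) (B : NBP n A S), B.ReadOnce → B.Width b → b ^ k ≤ n ^ (k - 1) →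
          (∀ w, B.Accepts w → List.ofFn w ∈ M.language) →
          2 ^ ((Nat.log 2 n) ^ 2 / (200 * k ^ 2)) *
            {w : Fin n → A | w ∈ F ∧ B.Accepts w}.ncard ≤ S * F.card := by
  classical
  refine ⟨St, Bool, Lt, inferInstance, inferInstance, inferInstance, mach, fun k n hk hn => ?_⟩
  obtain ⟨F, h1, h2, h3⟩ := main hk hn
  refine ⟨F, h1, h2, fun S b B hB hwd hb hL => ?_⟩
  have h4 := h3 S b B hB hwd hb hL
  have h5 : {w : Fin n → Lt | w ∈ F ∧ B.Accepts w} = ↑(F.filter fun w => B.Accepts w) := by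
    ext w
    simp
  rw [h5, Set.ncard_coe_finset]
  exact h4

end Pool.Agent.Results.MP_9277c3_lc.ReadOnceDPDA
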