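import Pool.Agent.H541R2.SL.Lower
import Pool.Agent.H541R2.SL.Upper

/-!
# A LOGCFL-complete problem and symmetric circuits with walk-counting gates

Inputs are the bits `R a b c` of a path system on `n` interchangeable elements and a set `M` of
distinguished elements.  The problem is whether `t` is derivable from `s` within `h` rounds
(`rounds R s h t`); for `h = Nat.log 2 n` it is complete for LOGCFL, the log-space closure of the
context-free languages.  The circuits are symmetric (label-invariant), their gates are arbitrary
functions of the numbers of walks of each length in networks whose arcs are switched by other gates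
(AND, OR, NOT, threshold, counting, reachability, ...).

1. Lower bound: in a circuit deciding this with output depth at most `d`, some gate or some network
   node has at least `n ^ w` images under the symmetric group, whenever
   `150 * w * (d + 1) * (Nat.log 2 w + 1)` is at most `h` and at most `Nat.log 2 n`.
2. Upper bound: symmetric circuits of AND and OR gates with at most `(h + 1) (n + |M| + 1) ^ 3` gates
   and depth `2 h`.
3. Upper bound: symmetric circuits of depth one, a single reachability gate in a network of at most
   `((n + |M|) (h + 1) + 1) ^ (h + 1)` nodes.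
-/

namespace Pool.Agent.Results.MP_9277c3_lc.SymmetricLogCFL

open H541R2.SC Equiv

universe u

/-- on every path system the circuit decides whether `t` is derivable from `s` within `h` rounds -/
def DecidesIn {V G Q : Type*} (C : Circuit V G Q) (h : ℕ) (s t : V) : Prop :=
  ∀ R : V → V → V → Prop, ∃ v, C.IsVal R v ∧ (v C.out ↔ rounds R s h t)

theorem result :
    (∀ (n w d h : ℕ), 1 ≤ w → 150 * w * (d + 1) * (Nat.log 2 w + 1) ≤ Nat.log 2 n →
      150 * w * (d + 1) * (Nat.log 2 w + 1) ≤ h →
      ∀ (M G Q : Type u) [Finite G] [Finite Q] [MulAction (Perm (Fin n)) G]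
        [MulAction (Perm (Fin n)) Q] (s t : M) (C : Circuit (Vx n M) G Q), s ≠ t →
        C.Symmetric → C.depth C.out ≤ d → DecidesIn C h (Sum.inr s) (Sum.inr t) →
        (∃ g : G, n ^ w ≤ (MulAction.orbit (Perm (Fin n)) g).ncard) ∨
          ∃ q : Q, n ^ w ≤ (MulAction.orbit (Perm (Fin n)) q).ncard) ∧
    (∀ (n h : ℕ) (M : Type u) [Finite M] (s t : M),
      ∃ (G : Type u) (_ : Finite G) (_ : MulAction (Perm (Fin n)) G)
        (_ : MulAction (Perm (Fin n)) Bool) (C : Circuit (Vx n M) G Bool),
        C.Symmetric ∧ C.AndOr ∧ DecidesIn C h (Sum.inr s) (Sum.inr t) ∧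
        C.depth C.out = 2 * h ∧ Nat.card G ≤ (h + 1) * (n + Nat.card M + 1) ^ 3) ∧
    (∀ (n h : ℕ) (M : Type u) [Finite M] (s t : M),
      ∃ (G Q : Type u) (_ : Finite G) (_ : Finite Q) (_ : MulAction (Perm (Fin n)) G)
        (_ : MulAction (Perm (Fin n)) Q) (C : Circuit (Vx n M) G Q),
        C.Symmetric ∧ H541R2.SL.OneReach C ∧ DecidesIn C h (Sum.inr s) (Sum.inr t) ∧
        C.depth C.out = 1 ∧
        Nat.card G ≤ (n + Nat.card M) ^ 3 + 2 ∧
        Nat.card Q ≤ ((n + Nat.card M) * (h + 1) + 1) ^ (h + 1)) := by
  refine ⟨?_, ?_, ?_⟩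
  · intro n w d h hw hn hh M G Q _ _ _ _ s t C hst hC hd hdec
    exact H541R2.SL.lower hw hn hh hst C hC hd hdec
  · intro n h M _ s t
    exact H541R2.SL.upper n h M s t
  · intro n h M _ s t
    exact H541R2.SL.upper' n h M s t

end Pool.Agent.Results.MP_9277c3_lc.SymmetricLogCFL
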